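import Pool.Agent.Y862.SQ.Stm2
import Pool.Agent.Y779.SQ.ELS

/-!
# SQ2-ELS: signed elementary large sieve (adapted from the file of helper779)
-/

set_option autoImplicit false

namespace Pool.Agent.Y279.SQ

open Finset
open Pool.Agent.Y862.SQ

/-- the symbol of `m`, cut to the odd numbers -/
def ff (m : ℤ) (n : ℕ) : ℤ := if Odd n then jacobiSym m n else 0

theorem ff_abs (m : ℤ) (n : ℕ) : |ff m n| ≤ 1 := by
  unfold ff
  split_ifs
  · rcases jacobiSym.trichotomy m n with h | h | h <;> rw [h] <;> simp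
  · simp

theorem ff_mod {m : ℤ} {n n' : ℕ} (h : n ≡ n' [MOD 4 * m.natAbs]) : ff m n = ff m n' := by
  have hpar : Odd n ↔ Odd n' := by
    have h2 : n ≡ n' [MOD 2] := h.of_dvd ⟨2 * m.natAbs, by ring⟩
    rw [Nat.odd_iff, Nat.odd_iff]
    unfold Nat.ModEq at h2
    omega
  unfold ff
  by_cases ho : Odd n
  · rw [if_pos ho, if_pos (hpar.1 ho), jacobiSym.mod_right _ ho, jacobiSym.mod_right _ (hpar.1 ho)]
    unfold Nat.ModEq at h
    rw [h]
  · rw [if_neg ho, if_neg (fun h => ho (hpar.2 h))]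

theorem ff_mul {m : ℤ} {d : ℕ} (hd : Odd d) (n : ℕ) : ff m (d * n) = ff m d * ff m n := by
  unfold ff
  rw [if_pos hd]
  by_cases hn : Odd n
  · rw [if_pos hn, if_pos (hd.mul hn)]
    exact jacobiSym.mul_right' _ (by rintro rfl; simp at hd) (by rintro rfl; simp at hn)
  · rw [if_neg hn, if_neg (fun h => hn (Nat.odd_mul.1 h).2), mul_zero]

theorem ff_period {m : ℤ} (hmz : ¬ IsSquare m) : ∑ n ∈ range (4 * m.natAbs), ff m n = 0 := by
  have hm0 : m.natAbs ≠ 0 := by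
    intro h
    apply hmz
    rw [Int.natAbs_eq_zero.1 h]
    exact ⟨0, rfl⟩
  obtain ⟨d, hd, hj⟩ := Pool.Agent.Helper919.exists_jacobi_neg_one m hmz
  have hN : 4 * m.natAbs ≠ 0 := by omega
  have hcop : Nat.Coprime d (4 * m.natAbs) := by
    apply Nat.Coprime.mul_right
    · have h2 : Nat.Coprime d 2 := (Nat.coprime_two_right).2 hd
      have := h2.pow_right 2
      simpa using this
    · by_contra hc
      have h0 : jacobiSym m d = 0 := by
        rw [jacobiSym.eq_zero_iff]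
        refine ⟨by rintro rfl; simp at hd, ?_⟩
        rw [Int.gcd_eq_natAbs, Int.natAbs_natCast, Nat.gcd_comm]
        exact hc
      rw [h0] at hj
      norm_num at hj
  have hfd : ff m d = -1 := by
    unfold ff
    rw [if_pos hd, hj]
  generalize hNN : 4 * m.natAbs = N at *
  have hNe : NeZero N := ⟨hN⟩
  have e1 : ∑ x ∈ range N, ff m x = ∑ x : ZMod N, ff m x.val := by
    rw [← Fin.sum_univ_eq_sum_range (fun x => ff m x)]
    apply (Fintype.sum_equiv (ZMod.finEquiv N).toEquiv _ _ _)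
    intro x
    congr 1
    cases N with
    | zero => exact absurd rfl hN
    | succ N => rfl
  have hu : IsUnit (d : ZMod N) := (ZMod.isUnit_iff_coprime d N).2 hcop
  obtain ⟨u, hu⟩ := hu
  have e2 : ∑ x : ZMod N, ff m x.val = ∑ x : ZMod N, ff m ((u : ZMod N) * x).val :=
    (Fintype.sum_equiv (Units.mulLeft u) _ _ (fun x => by simp)).symm
  have e3 : ∀ x : ZMod N, ff m ((u : ZMod N) * x).val = - ff m x.val := by
    intro x
    have h4 : ff m ((u : ZMod N) * x).val = ff m (d * x.val) := by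
      apply ff_mod
      rw [hNN]
      have h5 : ((((u : ZMod N) * x).val : ℕ) : ZMod N) = ((d * x.val : ℕ) : ZMod N) := by
        push_cast
        rw [ZMod.natCast_zmod_val, ZMod.natCast_zmod_val, hu]
      exact (ZMod.natCast_eq_natCast_iff _ _ _).1 h5
    rw [h4, ff_mul hd, hfd]
    ring
  simp_rw [e3, sum_neg_distrib] at e2
  rw [e1]
  linarith

theorem ff_partial {m : ℤ} (hm : ¬ IsSquare m) (x : ℕ) :
    |∑ n ∈ range x, ff m n| ≤ 4 * m.natAbs := by
  have hm0 : m.natAbs ≠ 0 := by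
    intro h
    apply hm
    rw [Int.natAbs_eq_zero.1 h]
    exact ⟨0, rfl⟩
  induction x using Nat.strong_induction_on with
  | _ x ih =>
    rcases lt_or_ge x (4 * m.natAbs) with hx | hx
    · calc |∑ n ∈ range x, ff m n| ≤ ∑ n ∈ range x, |ff m n| := abs_sum_le_sum_abs _ _
        _ ≤ ∑ n ∈ range x, 1 := sum_le_sum fun n _ => ff_abs m n
        _ = (x : ℤ) := by simp
        _ ≤ 4 * m.natAbs := by exact_mod_cast hx.le
    · obtain ⟨y, rfl⟩ : ∃ y, x = 4 * m.natAbs + y := ⟨x - 4 * m.natAbs, by omega⟩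
      rw [sum_range_add, ff_period hm, zero_add]
      have : ∀ i : ℕ, ff m (4 * m.natAbs + i) = ff m i := by
        intro i
        apply ff_mod
        unfold Nat.ModEq
        simp
      simp_rw [this]
      exact ih y (by omega)

/-- the number of the partners of `s` -/
theorem card_sqz (M : ℕ) (s : ℤ) (hs : s ≠ 0) :
    (((Icc (-(M : ℤ)) M).filter (fun s' => IsSquare (s * s') ∧ s * s' ≠ 0)).card : ℝ) ≤
      √(M : ℝ) := by
  classical
  refine le_trans ?_ (Pool.Agent.Y779.SQ.card_sq M s.natAbs (Int.natAbs_ne_zero.2 hs))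
  have h1 : ((Icc (-(M : ℤ)) M).filter (fun s' => IsSquare (s * s') ∧ s * s' ≠ 0)).card ≤
      ((Icc 1 M).filter (fun h' => IsSquare (s.natAbs * h'))).card := by
    refine Finset.card_le_card_of_injOn Int.natAbs ?_ ?_
    · intro s' hs'
      rw [Finset.mem_coe, mem_filter, mem_Icc] at hs'
      rw [Finset.mem_coe, mem_filter, mem_Icc]
      obtain ⟨⟨h2, h3⟩, ⟨r, hr⟩, h4⟩ := hs'
      have h5 : s' ≠ 0 := by
        rintro rfl
        simp at h4
      refine ⟨⟨by omega, by omega⟩, r.natAbs, ?_⟩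
      rw [← Int.natAbs_mul, hr, Int.natAbs_mul]
    · intro s' hs' s'' hs'' h
      rw [Finset.mem_coe, mem_filter] at hs' hs''
      obtain ⟨-, ⟨r, hr⟩, h4⟩ := hs'
      obtain ⟨-, ⟨r', hr'⟩, h4'⟩ := hs''
      have h5 : 0 < s * s' := lt_of_le_of_ne (by rw [hr]; exact mul_self_nonneg r) (Ne.symm h4)
      have h6 : 0 < s * s'' := lt_of_le_of_ne (by rw [hr']; exact mul_self_nonneg r') (Ne.symm h4')
      rcases Int.natAbs_eq_natAbs_iff.1 h with h7 | h7
      · exact h7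
      · rw [h7] at h5
        nlinarith
  exact_mod_cast h1

/-- the symbol of `-s` on the odd numbers -/
noncomputable def ch (s : ℤ) (n : ℕ) : ℝ := if Odd n then (jacobiSym (-s) n : ℝ) else 0

theorem ch_abs (s : ℤ) (n : ℕ) : |ch s n| ≤ 1 := by
  unfold ch
  split_ifs
  · rcases jacobiSym.trichotomy (-s) n with h | h | h <;> rw [h] <;> simp
  · simp

theorem ch_mul (s s' : ℤ) (n : ℕ) : ch s n * ch s' n = (ff (s * s') n : ℝ) := by
  unfold ch ff
  by_cases hn : Odd n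
  · rw [if_pos hn, if_pos hn, if_pos hn, ← Int.cast_mul, ← jacobiSym.mul_left]
    congr 2
    ring
  · rw [if_neg hn, if_neg hn, if_neg hn, zero_mul, Int.cast_zero]

theorem corr_sq (N : ℕ) (s s' : ℤ) : |∑ n ∈ Icc 1 N, ch s n * ch s' n| ≤ N := by
  calc |∑ n ∈ Icc 1 N, ch s n * ch s' n| ≤ ∑ n ∈ Icc 1 N, |ch s n * ch s' n| :=
        abs_sum_le_sum_abs _ _
    _ ≤ ∑ n ∈ Icc 1 N, (1 : ℝ) := by
        apply sum_le_sum
        intro n _
        rw [abs_mul]
        exact mul_le_one₀ (ch_abs s n) (abs_nonneg _) (ch_abs s' n)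
    _ = N := by simp

theorem corr_zero (N : ℕ) (s s' : ℤ) (h : s * s' = 0) :
    |∑ n ∈ Icc 1 N, ch s n * ch s' n| ≤ 1 := by
  have h1 : ∀ n ∈ Icc 1 N, |ch s n * ch s' n| ≤ if n = 1 then 1 else 0 := by
    intro n hn
    rw [mem_Icc] at hn
    rw [ch_mul, h]
    unfold ff
    split_ifs with h2 h3 h3
    · rw [h3]
      simp
    · rw [jacobiSym.zero_left (by omega)]
      simp
    · simp
    · simp
  calc |∑ n ∈ Icc 1 N, ch s n * ch s' n| ≤ ∑ n ∈ Icc 1 N, |ch s n * ch s' n| :=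
        abs_sum_le_sum_abs _ _
    _ ≤ ∑ n ∈ Icc 1 N, (if n = 1 then (1 : ℝ) else 0) := sum_le_sum h1
    _ ≤ 1 := by
        rw [Finset.sum_ite_eq']
        split_ifs <;> norm_num

theorem corr_ns (N : ℕ) (s s' : ℤ) (hs : ¬ IsSquare (s * s')) :
    |∑ n ∈ Icc 1 N, ch s n * ch s' n| ≤ 4 * (|(s : ℝ)| * |(s' : ℝ)|) := by
  have h1 : ∑ n ∈ Icc 1 N, ch s n * ch s' n = ((∑ n ∈ range (N + 1), ff (s * s') n : ℤ) : ℝ) := by
    rw [sum_congr rfl fun n _ => ch_mul s s' n]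
    rw [← Int.cast_sum]
    congr 1
    apply sum_subset
    · intro n hn
      rw [mem_Icc] at hn
      rw [mem_range]
      omega
    · intro n hn hn'
      rw [mem_range] at hn
      rw [mem_Icc] at hn'
      have : n = 0 := by omega
      subst this
      unfold ff
      rw [if_neg (by decide)]
  rw [h1, ← Int.cast_abs]
  have h2 := ff_partial hs (N + 1)
  have h3 : ((|∑ n ∈ range (N + 1), ff (s * s') n| : ℤ) : ℝ) ≤ ((4 * (s * s').natAbs : ℤ) : ℝ) := by
    exact_mod_cast h2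
  refine h3.trans (le_of_eq ?_)
  have h4 : (((s * s').natAbs : ℤ) : ℝ) = |(s : ℝ)| * |(s' : ℝ)| := by
    rw [Int.natCast_natAbs, Int.cast_abs, Int.cast_mul, abs_mul]
  rw [Int.cast_mul, h4]
  norm_num

theorem t_ELSZ : S_ELSZ := by
  intro M N a ha
  classical
  obtain ⟨I, hI⟩ : ∃ I : Finset ℤ, I = Icc (-(M : ℤ)) M := ⟨_, rfl⟩
  rw [← hI]
  set S : ℤ → ℝ := fun s => ∑ n ∈ Icc 1 N, a n * (jacobiSym (-s) n : ℝ) with hS
  set V : ℝ := ∑ s ∈ I, S s ^ 2 with hV
  set A : ℝ := ∑ n ∈ Icc 1 N, a n ^ 2 with hA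
  set g : ℕ → ℝ := fun n => ∑ s ∈ I, S s * ch s n with hg
  have hV0 : 0 ≤ V := sum_nonneg fun s _ => sq_nonneg _
  have hA0 : 0 ≤ A := sum_nonneg fun s _ => sq_nonneg _
  have hSc : ∀ s, S s = ∑ n ∈ Icc 1 N, a n * ch s n := by
    intro s
    apply sum_congr rfl
    intro n _
    unfold ch
    split_ifs with ho
    · rfl
    · rw [ha n (Nat.not_odd_iff_even.1 ho), zero_mul, zero_mul]
  have h1 : V = ∑ n ∈ Icc 1 N, a n * g n := by
    have e : ∀ s, S s ^ 2 = ∑ n ∈ Icc 1 N, S s * (a n * ch s n) := by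
      intro s
      rw [← mul_sum, ← hSc, pow_two]
    rw [hV, sum_congr rfl fun s _ => e s, sum_comm]
    apply sum_congr rfl
    intro n _
    rw [hg]
    simp only
    rw [mul_sum]
    apply sum_congr rfl
    intro s _
    ring
  have h2 : V ^ 2 ≤ A * ∑ n ∈ Icc 1 N, g n ^ 2 := by
    rw [h1]
    exact sum_mul_sq_le_sq_mul_sq _ _ _
  have h4 : ∑ n ∈ Icc 1 N, g n ^ 2 = ∑ s ∈ I, ∑ s' ∈ I, S s * S s' *
      ∑ n ∈ Icc 1 N, ch s n * ch s' n := by
    have : ∀ n, g n ^ 2 = ∑ s ∈ I, ∑ s' ∈ I, S s * S s' * (ch s n * ch s' n) := by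
      intro n
      rw [pow_two, hg]
      simp only
      rw [sum_mul_sum]
      apply sum_congr rfl; intro d _
      apply sum_congr rfl; intro d' _
      ring
    rw [sum_congr rfl fun n _ => this n]
    rw [sum_comm]
    apply sum_congr rfl; intro d _
    rw [sum_comm]
    apply sum_congr rfl; intro d' _
    rw [← mul_sum]
  have hcb : ∀ s ∈ I, ∑ s' ∈ I, (if IsSquare (s * s') ∧ s * s' ≠ 0 then (1 : ℝ) else 0) ≤
      √(M : ℝ) := by
    intro s _
    by_cases hs : s = 0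
    · subst hs
      simp
    · rw [sum_boole, hI]
      exact card_sqz M s hs
  have hcard : (I.card : ℝ) = 2 * M + 1 := by
    rw [hI, Int.card_Icc]
    have : ((M : ℤ) + 1 - -(M : ℤ)).toNat = 2 * M + 1 := by omega
    rw [this]
    push_cast
    ring
  have hM0 : (0 : ℝ) ≤ M := Nat.cast_nonneg M
  have hN0 : (0 : ℝ) ≤ N := Nat.cast_nonneg N
  have h5 : ∑ n ∈ Icc 1 N, g n ^ 2 ≤
      (N * √(M : ℝ) + (2 * M + 1) * (4 * (M : ℝ) ^ 2 + 1)) * V := by
    rw [h4]
    have h6 : ∀ s ∈ I, ∀ s' ∈ I, S s * S s' * ∑ n ∈ Icc 1 N, ch s n * ch s' n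
        ≤ (N / 2 * S s ^ 2 * (if IsSquare (s * s') ∧ s * s' ≠ 0 then (1 : ℝ) else 0) +
          N / 2 * S s' ^ 2 * (if IsSquare (s' * s) ∧ s' * s ≠ 0 then (1 : ℝ) else 0)) +
          |S s| * |S s'| * (4 * (M : ℝ) ^ 2 + 1) := by
      intro s hs0 s' hs0'
      rw [hI, mem_Icc] at hs0 hs0'
      have hab : S s * S s' * ∑ n ∈ Icc 1 N, ch s n * ch s' n ≤
          |S s| * |S s'| * |∑ n ∈ Icc 1 N, ch s n * ch s' n| := by
        refine (le_abs_self _).trans (le_of_eq ?_)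
        rw [abs_mul, abs_mul]
      have hSS : 0 ≤ |S s| * |S s'| := by positivity
      by_cases hs : IsSquare (s * s')
      · by_cases hz : s * s' = 0
        · have hz' : s' * s = 0 := by rw [mul_comm]; exact hz
          rw [if_neg (fun h => h.2 hz), if_neg (fun h => h.2 hz'), mul_zero, mul_zero, add_zero,
            zero_add]
          refine hab.trans (mul_le_mul_of_nonneg_left ?_ hSS)
          have := corr_zero N s s' hz
          nlinarith [sq_nonneg (M : ℝ)]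
        · have hs' : IsSquare (s' * s) ∧ s' * s ≠ 0 := by
            rw [mul_comm]
            exact ⟨hs, hz⟩
          rw [if_pos ⟨hs, hz⟩, if_pos hs']
          have e1 := corr_sq N s s'
          have e2 : |S s| * |S s'| ≤ (S s ^ 2 + S s' ^ 2) / 2 := by
            have := sq_nonneg (|S s| - |S s'|)
            rw [← sq_abs (S s), ← sq_abs (S s')]
            nlinarith
          have e3 : |S s| * |S s'| * |∑ n ∈ Icc 1 N, ch s n * ch s' n| ≤
              (S s ^ 2 + S s' ^ 2) / 2 * N :=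
            mul_le_mul e2 e1 (abs_nonneg _) (by positivity)
          have e4 : 0 ≤ |S s| * |S s'| * (4 * (M : ℝ) ^ 2 + 1) := by positivity
          linarith
      · have hs' : ¬ (IsSquare (s' * s) ∧ s' * s ≠ 0) := by
          rw [mul_comm]
          exact fun h => hs h.1
        rw [if_neg (fun h => hs h.1), if_neg hs', mul_zero, mul_zero, add_zero, zero_add]
        refine hab.trans (mul_le_mul_of_nonneg_left ?_ hSS)
        refine (corr_ns N s s' hs).trans ?_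
        have e1 : |(s : ℝ)| ≤ M := by
          rw [abs_le]
          exact ⟨by exact_mod_cast hs0.1, by exact_mod_cast hs0.2⟩
        have e2 : |(s' : ℝ)| ≤ M := by
          rw [abs_le]
          exact ⟨by exact_mod_cast hs0'.1, by exact_mod_cast hs0'.2⟩
        have e3 : |(s : ℝ)| * |(s' : ℝ)| ≤ M * M := mul_le_mul e1 e2 (abs_nonneg _) hM0
        nlinarith
    have h7 : ∑ s ∈ I, ∑ s' ∈ I, N / 2 * S s ^ 2 *
        (if IsSquare (s * s') ∧ s * s' ≠ 0 then (1 : ℝ) else 0) ≤ N / 2 * √(M : ℝ) * V := by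
      rw [hV, mul_sum]
      apply sum_le_sum
      intro s hs
      rw [← mul_sum]
      calc N / 2 * S s ^ 2 * ∑ s' ∈ I, (if IsSquare (s * s') ∧ s * s' ≠ 0 then (1 : ℝ) else 0) ≤
          N / 2 * S s ^ 2 * √(M : ℝ) := mul_le_mul_of_nonneg_left (hcb s hs) (by positivity)
        _ = _ := by ring
    have h8 : ∑ s ∈ I, ∑ s' ∈ I, N / 2 * S s' ^ 2 *
        (if IsSquare (s' * s) ∧ s' * s ≠ 0 then (1 : ℝ) else 0) ≤ N / 2 * √(M : ℝ) * V := by
      rw [sum_comm]
      exact h7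
    have h9 : (∑ s ∈ I, |S s|) ^ 2 ≤ (2 * M + 1) * V := by
      have h10 : (∑ s ∈ I, |S s|) ^ 2 ≤ (I.card : ℝ) * ∑ s ∈ I, |S s| ^ 2 :=
        sq_sum_le_card_mul_sum_sq
      rw [hcard] at h10
      simpa [sq_abs] using h10
    calc ∑ s ∈ I, ∑ s' ∈ I, S s * S s' * ∑ n ∈ Icc 1 N, ch s n * ch s' n
        ≤ ∑ s ∈ I, ∑ s' ∈ I,
          ((N / 2 * S s ^ 2 * (if IsSquare (s * s') ∧ s * s' ≠ 0 then (1 : ℝ) else 0) +
          N / 2 * S s' ^ 2 * (if IsSquare (s' * s) ∧ s' * s ≠ 0 then (1 : ℝ) else 0)) +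
          |S s| * |S s'| * (4 * (M : ℝ) ^ 2 + 1)) :=
          sum_le_sum fun s hs => sum_le_sum fun s' hs' => h6 s hs s' hs'
      _ = (∑ s ∈ I, ∑ s' ∈ I, N / 2 * S s ^ 2 *
        (if IsSquare (s * s') ∧ s * s' ≠ 0 then (1 : ℝ) else 0)) + (∑ s ∈ I, ∑ s' ∈ I,
          N / 2 * S s' ^ 2 * (if IsSquare (s' * s) ∧ s' * s ≠ 0 then (1 : ℝ) else 0)) +
          (∑ s ∈ I, |S s|) ^ 2 * (4 * (M : ℝ) ^ 2 + 1) := by
          simp_rw [sum_add_distrib]
          congr 1
          have h20 : (∑ s ∈ I, |S s|) ^ 2 = ∑ s ∈ I, ∑ s' ∈ I, |S s| * |S s'| := by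
            rw [pow_two, sum_mul_sum]
          rw [h20, sum_mul]
          apply sum_congr rfl; intro d _
          rw [sum_mul]
      _ ≤ N / 2 * √(M : ℝ) * V + N / 2 * √(M : ℝ) * V +
          (2 * M + 1) * V * (4 * (M : ℝ) ^ 2 + 1) :=
          add_le_add (add_le_add h7 h8) (mul_le_mul_of_nonneg_right h9 (by positivity))
      _ = (N * √(M : ℝ) + (2 * M + 1) * (4 * (M : ℝ) ^ 2 + 1)) * V := by ring
  have hVb : V ≤ (N * √(M : ℝ) + (2 * M + 1) * (4 * (M : ℝ) ^ 2 + 1)) * A := by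
    rcases hV0.lt_or_eq with h | h
    · have h12 : V * V ≤ ((N * √(M : ℝ) + (2 * M + 1) * (4 * (M : ℝ) ^ 2 + 1)) * A) * V := by
        calc V * V = V ^ 2 := by ring
          _ ≤ A * ∑ n ∈ Icc 1 N, g n ^ 2 := h2
          _ ≤ A * ((N * √(M : ℝ) + (2 * M + 1) * (4 * (M : ℝ) ^ 2 + 1)) * V) :=
            mul_le_mul_of_nonneg_left h5 hA0
          _ = _ := by ring
      exact le_of_mul_le_mul_right h12 h
    · rw [← h]
      positivity
  refine hVb.trans (mul_le_mul_of_nonneg_right ?_ hA0)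
  have h20 : √(M : ℝ) ≤ √((M : ℝ) + 1) := Real.sqrt_le_sqrt (by linarith)
  have h21 : (N : ℝ) * √(M : ℝ) ≤ 4 * N * √((M : ℝ) + 1) := by
    have h22 : (N : ℝ) * √(M : ℝ) ≤ N * √((M : ℝ) + 1) := mul_le_mul_of_nonneg_left h20 hN0
    have h23 : 0 ≤ (N : ℝ) * √((M : ℝ) + 1) := by positivity
    linarith
  have h24 : (2 * (M : ℝ) + 1) * (4 * (M : ℝ) ^ 2 + 1) ≤ 100 * ((M : ℝ) + 1) ^ 3 := by
    have h25 : 100 * ((M : ℝ) + 1) ^ 3 - (2 * (M : ℝ) + 1) * (4 * (M : ℝ) ^ 2 + 1) =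
        92 * (M : ℝ) ^ 3 + 296 * (M : ℝ) ^ 2 + 298 * M + 99 := by ring
    have h26 : 0 ≤ 92 * (M : ℝ) ^ 3 + 296 * (M : ℝ) ^ 2 + 298 * M + 99 := by positivity
    linarith
  linarith

end Pool.Agent.Y279.SQ
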